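import Pool.Agent.Lib.MP_d28baf_an.Far

/-!
# MP_d28baf_an: the classes whose Aubry set is one periodic orbit miss a point of every far line

For an autonomous Tonelli Lagrangian `L` on the torus `𝕋ⁿ`, `OneOrbit L ψ` is the set of the classes `c`
whose Aubry set is exactly one periodic orbit or equilibrium; it contains the set `G` of the problem.
On `OneOrbit` the rotation vector of the minimising measures is unique, continuous in `c`, and, far out,
a positive multiple of an integer vector; so its direction is locally constant there.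
-/

set_option autoImplicit false

namespace Pool.Agent.Results.MP_d28baf_an.FarLines

open MeasureTheory Set Pool.Agent.Lib.MP_d28baf_an

theorem result (n : ℕ) (L : T n × E n → ℝ) (ψ : ℝ → T n × E n → T n × E n) (hL : Tonelli L)
    (hψ : IsELFlow L ψ) : ∃ R : ℝ,
    (∀ S : Set (E n), IsPreconnected S → S ⊆ OneOrbit L ψ → (∀ c ∈ S, R ≤ ‖c‖) →
      ∃ h : Fin n → ℤ, ∀ c ∈ S, 0 < pair c fun i => (h i : ℝ)) ∧
    (∀ p e : E n, e ≠ 0 → (∀ t : ℝ, R ≤ ‖p + t • e‖) → ∃ t : ℝ, p + t • e ∉ OneOrbit L ψ) ∧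
    (2 ≤ n → μH[(n : ℝ) - 1] (OneOrbit L ψ)ᶜ = ⊤) := by
  obtain ⟨R, h1, h2⟩ := far hL hψ
  refine ⟨R, h1, h2, fun hn => ?_⟩
  obtain ⟨m, rfl⟩ : ∃ m, n = m + 1 := ⟨n - 1, by omega⟩
  have h3 := big (by omega) hL hψ
  have h4 : ((m + 1 : ℕ) : ℝ) - 1 = m := by push_cast; ring
  rw [h4]
  exact h3

end Pool.Agent.Results.MP_d28baf_an.FarLines
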